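import Mathlib

/-!
Derivation trees of a context-free grammar, context paths, and the relation
`R A x y` (every word derived from `A` may stand between `x` and `y`).
-/

set_option autoImplicit false

namespace Pool.Agent.L0h34.PK

open Relation

variable {α : Type}

/-- `n` copies of a word. -/
def rep (n : ℕ) (u : List α) : List α := (List.replicate n u).flatten

@[simp] lemma rep_zero (u : List α) : rep 0 u = [] := rfl

lemma rep_succ (n : ℕ) (u : List α) : rep (n + 1) u = u ++ rep n u := by
  simp [rep, List.replicate_succ]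

lemma rep_succ' (n : ℕ) (u : List α) : rep (n + 1) u = rep n u ++ u := by
  induction n with
  | zero => simp [rep_succ]
  | succ n ih => rw [rep_succ, ih, ← List.append_assoc, ← rep_succ, ih]

@[simp] lemma rep_nil (n : ℕ) : rep n ([] : List α) = [] := by
  induction n with
  | zero => rfl
  | succ n ih => rw [rep_succ, ih]; rfl

/-- Condition `P_k`. -/
def PCond (k : ℕ) (L : Language α) : Prop :=
  ∀ x u y v z : List α, u ++ v ≠ [] →
    (∀ n : ℕ, 1 ≤ n → x ++ rep n u ++ y ++ rep n v ++ z ∈ L) →
    ∀ m m' : ℕ, x ++ rep (k * m) u ++ y ++ rep (k * m') v ++ z ∈ L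

/-- derivation trees -/
inductive Tr (g : ContextFreeGrammar α) : List (Symbol α g.NT) → List α → Prop
  | nil : Tr g [] []
  | term (a : α) (s : List (Symbol α g.NT)) (w : List α) (h : Tr g s w) :
      Tr g (Symbol.terminal a :: s) (a :: w)
  | nont (r : ContextFreeRule α g.NT) (s : List (Symbol α g.NT)) (w w' : List α) (hr : r ∈ g.rules)
      (h : Tr g r.output w) (h' : Tr g s w') :
      Tr g (Symbol.nonterminal r.input :: s) (w ++ w')

variable {g : ContextFreeGrammar α}

lemma Tr.append {s s' : List (Symbol α g.NT)} {w w' : List α} (h : Tr g s w) (h' : Tr g s' w') :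
    Tr g (s ++ s') (w ++ w') := by
  induction h with
  | nil => simpa using h'
  | term a s w _ ih => exact Tr.term a _ _ ih
  | nont r s w1 w2 hr h1 _ _ ih2 =>
      rw [List.append_assoc]
      exact Tr.nont r _ _ _ hr h1 ih2

lemma Tr.split {s s' : List (Symbol α g.NT)} {w : List α} (h : Tr g (s ++ s') w) :
    ∃ w1 w2, w = w1 ++ w2 ∧ Tr g s w1 ∧ Tr g s' w2 := by
  induction s generalizing w with
  | nil => exact ⟨[], w, rfl, Tr.nil, h⟩
  | cons a s ih =>
      rw [List.cons_append] at h
      cases h with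
      | term b _ w h =>
          obtain ⟨w1, w2, rfl, h1, h2⟩ := ih h
          exact ⟨b :: w1, w2, rfl, Tr.term b _ _ h1, h2⟩
      | nont r _ w w' hr h h' =>
          obtain ⟨w1, w2, rfl, h1, h2⟩ := ih h'
          exact ⟨w ++ w1, w2, by simp, Tr.nont r _ _ _ hr h h1, h2⟩

lemma Tr.terms (w : List α) : Tr g (w.map Symbol.terminal) w := by
  induction w with
  | nil => exact Tr.nil
  | cons a w ih => exact Tr.term a _ _ ih

lemma Tr.of_rewrites {r : ContextFreeRule α g.NT} (hr : r ∈ g.rules) {s s' : List (Symbol α g.NT)}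
    (h : r.Rewrites s s') : ∀ {w : List α}, Tr g s' w → Tr g s w := by
  induction h with
  | head s =>
      intro w hw
      obtain ⟨w1, w2, rfl, h1, h2⟩ := hw.split
      exact Tr.nont r _ _ _ hr h1 h2
  | cons x _ ih =>
      intro w hw
      cases hw with
      | term b _ w h => exact Tr.term b _ _ (ih h)
      | nont r' _ w w' hr' h h' => exact Tr.nont r' _ _ _ hr' h (ih h')

lemma Tr.of_derives {s : List (Symbol α g.NT)} {w : List α}
    (h : g.Derives s (w.map Symbol.terminal)) : Tr g s w := by
  induction h using Relation.ReflTransGen.head_induction_on with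
  | refl => exact Tr.terms w
  | head h _ ih =>
      obtain ⟨r, hr, hrw⟩ := h
      exact Tr.of_rewrites hr hrw ih

lemma Tr.derives {s : List (Symbol α g.NT)} {w : List α} (h : Tr g s w) :
    g.Derives s (w.map Symbol.terminal) := by
  induction h with
  | nil => exact ContextFreeGrammar.Derives.refl _
  | term a s w _ ih => exact ih.append_left [Symbol.terminal a]
  | nont r s w w' hr _ _ ih1 ih2 =>
      have h0 : g.Derives (Symbol.nonterminal r.input :: s) (r.output ++ s) :=
        Relation.ReflTransGen.single ⟨r, hr, ContextFreeRule.Rewrites.head s⟩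
      have h1 := ih1.append_right s
      have h2 := ih2.append_left (w.map Symbol.terminal)
      rw [List.map_append]
      exact h0.trans (h1.trans h2)

lemma mem_language_iff_tr (w : List α) :
    w ∈ g.language ↔ Tr g [Symbol.nonterminal g.initial] w :=
  ⟨fun h => Tr.of_derives h, fun h => h.derives⟩

lemma tr_nont_iff (A : g.NT) (w : List α) :
    Tr g [Symbol.nonterminal A] w ↔ ∃ r ∈ g.rules, r.input = A ∧ Tr g r.output w := by
  constructor
  · intro h
    cases h with
    | nont r _ w w' hr h h' =>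
        cases h'
        exact ⟨r, hr, rfl, by simpa using h⟩
  · rintro ⟨r, hr, rfl, h⟩
    have := Tr.nont r [] w [] hr h Tr.nil
    simpa using this

/-- the language of a sentential form -/
def Yl (g : ContextFreeGrammar α) (s : List (Symbol α g.NT)) : Language α := {w | Tr g s w}

lemma mem_Yl (s : List (Symbol α g.NT)) (w : List α) : w ∈ Yl g s ↔ Tr g s w := Iff.rfl

/-- the edges: an occurrence of a nonterminal in the output of a rule, with its two side languages -/
def edges (g : ContextFreeGrammar α) : Set (g.NT × Language α × Language α × g.NT) :=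
  {e | ∃ r ∈ g.rules, r.input = e.1 ∧ ∃ s s', r.output = s ++ Symbol.nonterminal e.2.2.2 :: s' ∧
    e.2.1 = Yl g s ∧ e.2.2.1 = Yl g s'}

lemma edges_finite (g : ContextFreeGrammar α) : (edges g).Finite := by
  classical
  have h : edges g ⊆ ⋃ r ∈ (g.rules : Set (ContextFreeRule α g.NT)),
      ⋃ i ∈ (Set.Iic r.output.length),
        {e | r.input = e.1 ∧ r.output[i]? = some (Symbol.nonterminal e.2.2.2) ∧
          e.2.1 = Yl g (r.output.take i) ∧ e.2.2.1 = Yl g (r.output.drop (i + 1))} := by
    rintro ⟨A, P, Q, B⟩ ⟨r, hr, hA, s, s', hs, hP, hQ⟩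
    simp only [Set.mem_iUnion]
    refine ⟨r, hr, s.length, ?_, hA, ?_, ?_, ?_⟩
    · rw [Set.mem_Iic, hs]; simp
    · rw [hs]; simp
    · rw [hP, hs]; simp
    · rw [hQ, hs]; simp
  refine Set.Finite.subset ?_ h
  refine Set.Finite.biUnion g.rules.finite_toSet (fun r _ => ?_)
  refine Set.Finite.biUnion (Set.finite_Iic _) (fun i _ => ?_)
  refine Set.Subsingleton.finite ?_
  rintro ⟨A, P, Q, B⟩ ⟨h1, h2, h3, h4⟩ ⟨A', P', Q', B'⟩ ⟨h1', h2', h3', h4'⟩
  simp only at h1 h2 h3 h4 h1' h2' h3' h4'
  rw [h2] at h2'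
  have hB : B = B' := by simpa using h2'
  rw [← h1, ← h1', h3, h3', h4, h4', hB]

/-- Paths of edges, recorded by their two side languages. -/
inductive Path (g : ContextFreeGrammar α) : g.NT → g.NT → Language α → Language α → Prop
  | nil (A : g.NT) : Path g A A 1 1
  | snoc {A B C : g.NT} {P Q P' Q' : Language α} (h : Path g A B P Q)
      (he : (B, P', Q', C) ∈ edges g) (hP : P'.Nonempty) (hQ : Q'.Nonempty) :
      Path g A C (P * P') (Q' * Q)

lemma Path.single {B C : g.NT} {P Q : Language α} (he : (B, P, Q, C) ∈ edges g)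
    (hP : P.Nonempty) (hQ : Q.Nonempty) : Path g B C P Q := by
  have := Path.snoc (Path.nil B) he hP hQ
  simpa using this

lemma Path.trans {A B C : g.NT} {P Q P' Q' : Language α} (h : Path g A B P Q)
    (h' : Path g B C P' Q') : Path g A C (P * P') (Q' * Q) := by
  induction h' with
  | nil => simpa using h
  | snoc h1 he hP hQ ih =>
      have := Path.snoc ih he hP hQ
      simpa [mul_assoc] using this

lemma Path.nonempty {A B : g.NT} {P Q : Language α} (h : Path g A B P Q) :
    P.Nonempty ∧ Q.Nonempty := by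
  induction h with
  | nil => exact ⟨⟨[], rfl⟩, ⟨[], rfl⟩⟩
  | snoc _ _ hP hQ ih =>
      obtain ⟨⟨p, hp⟩, ⟨q, hq⟩⟩ := ih
      obtain ⟨p', hp'⟩ := hP
      obtain ⟨q', hq'⟩ := hQ
      exact ⟨⟨p ++ p', Language.append_mem_mul hp hp'⟩, ⟨q' ++ q, Language.append_mem_mul hq' hq⟩⟩

lemma edge_yield {A B : g.NT} {P Q : Language α} (he : (A, P, Q, B) ∈ edges g) {p q m : List α}
    (hp : p ∈ P) (hq : q ∈ Q) (hm : Tr g [Symbol.nonterminal B] m) :
    Tr g [Symbol.nonterminal A] (p ++ m ++ q) := by
  obtain ⟨r, hr, hA, s, s', hs, hP, hQ⟩ := he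
  simp only at hA hs hP hQ
  subst hP hQ
  rw [tr_nont_iff]
  refine ⟨r, hr, hA, ?_⟩
  rw [hs]
  have := (Tr.append (Tr.append hp hm) hq)
  simpa using this

lemma Path.yield {A B : g.NT} {P Q : Language α} (h : Path g A B P Q) : ∀ {p q m : List α},
    p ∈ P → q ∈ Q → Tr g [Symbol.nonterminal B] m →
    Tr g [Symbol.nonterminal A] (p ++ m ++ q) := by
  induction h with
  | nil =>
      intro p q m hp hq hm
      have hp' : p = [] := hp
      have hq' : q = [] := hq
      subst hp' hq'
      simpa using hm
  | snoc _ he _ _ ih =>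
      intro p q m hp hq hm
      obtain ⟨p1, hp1, p2, hp2, rfl⟩ := Language.mem_mul.1 hp
      obtain ⟨q2, hq2, q1, hq1, rfl⟩ := Language.mem_mul.1 hq
      have := ih hp1 hq1 (edge_yield he hp2 hq2 hm)
      simpa using this

/-- every letter of a derived word is reached by a path -/
lemma Tr.letter {s : List (Symbol α g.NT)} {w : List α} (h : Tr g s w) :
    ∀ (x y : List α) (d : α), w = x ++ d :: y → ∃ (s1 s2 : List (Symbol α g.NT)) (b : Symbol α g.NT)
      (x1 x2 y2 y1 : List α), s = s1 ++ b :: s2 ∧ x = x1 ++ x2 ∧ y = y2 ++ y1 ∧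
      Tr g s1 x1 ∧ Tr g s2 y1 ∧
      ((b = Symbol.terminal d ∧ x2 = [] ∧ y2 = []) ∨
        ∃ A B P Q t t' r, b = Symbol.nonterminal A ∧ Path g A B P Q ∧ r ∈ g.rules ∧ r.input = B ∧
          r.output = t ++ Symbol.terminal d :: t' ∧ x2 ∈ P * Yl g t ∧ y2 ∈ Yl g t' * Q) := by
  induction h with
  | nil => intro x y d h; simp at h
  | term a s w h ih =>
      intro x y d hw
      cases x with
      | nil =>
          simp only [List.nil_append, List.cons.injEq] at hw
          obtain ⟨rfl, rfl⟩ := hw
          exact ⟨[], s, Symbol.terminal a, [], [], [], w, rfl, rfl, rfl, Tr.nil, h,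
            Or.inl ⟨rfl, rfl, rfl⟩⟩
      | cons c x =>
          simp only [List.cons_append, List.cons.injEq] at hw
          obtain ⟨rfl, hw⟩ := hw
          obtain ⟨s1, s2, b, x1, x2, y2, y1, rfl, rfl, rfl, h1, h2, h3⟩ := ih x y d hw
          exact ⟨Symbol.terminal a :: s1, s2, b, a :: x1, x2, y2, y1, rfl, rfl, rfl,
            Tr.term a _ _ h1, h2, h3⟩
  | nont r s w w' hr h h' ih ih' =>
      intro x y d hw
      rw [List.append_eq_append_iff] at hw
      rcases hw with ⟨z, hz, hz'⟩ | ⟨z, hz, hz'⟩
      · -- x = w ++ z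
        obtain ⟨s1, s2, b, x1, x2, y2, y1, rfl, rfl, rfl, h1, h2, h3⟩ := ih' z y d hz'
        refine ⟨Symbol.nonterminal r.input :: s1, s2, b, w ++ x1, x2, y2, y1, rfl, ?_, rfl, ?_, h2,
          h3⟩
        · rw [hz]; simp
        · exact Tr.nont r _ _ _ hr h h1
      · -- w = x ++ z
        cases z with
        | nil =>
            simp only [List.nil_append] at hz'
            obtain ⟨s1, s2, b, x1, x2, y2, y1, rfl, hx, rfl, h1, h2, h3⟩ := ih' [] y d (by simpa using hz'.symm)
            refine ⟨Symbol.nonterminal r.input :: s1, s2, b, w ++ x1, x2, y2, y1, rfl, ?_, rfl, ?_,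
              h2, h3⟩
            · have : x = w := by simpa using hz.symm
              rw [this, List.append_assoc, ← hx]; simp
            · exact Tr.nont r _ _ _ hr h h1
        | cons c z =>
            simp only [List.cons_append, List.cons.injEq] at hz'
            obtain ⟨rfl, hz'⟩ := hz'
            obtain ⟨s1, s2, b, x1, x2, y2, y1, hs, rfl, rfl, h1, h2, h3⟩ := ih x z d hz
            refine ⟨[], s, Symbol.nonterminal r.input, [], x1 ++ x2, y2 ++ y1, w', rfl, rfl, hz',
              Tr.nil, h', Or.inr ?_⟩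
            rcases h3 with ⟨rfl, rfl, rfl⟩ | ⟨A, B, P, Q, t, t', r', rfl, hp, hr', hB, ho, hx2, hy2⟩
            · refine ⟨r.input, r.input, 1, 1, s1, s2, r, rfl, Path.nil _, hr, rfl, hs, ?_, ?_⟩
              · rw [one_mul, List.append_nil]; exact h1
              · rw [mul_one, List.nil_append]; exact h2
            · have he : (r.input, Yl g s1, Yl g s2, A) ∈ edges g := ⟨r, hr, rfl, s1, s2, hs, rfl, rfl⟩
              have hpath := (Path.single he ⟨x1, h1⟩ ⟨y1, h2⟩).trans hp
              refine ⟨r.input, B, _, _, t, t', r', rfl, hpath, hr', hB, ho, ?_, ?_⟩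
              · rw [mul_assoc]
                exact Language.append_mem_mul h1 hx2
              · rw [← mul_assoc]
                exact Language.append_mem_mul hy2 h2

end Pool.Agent.L0h34.PK
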