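import Mathlib

/-!
Finitely generated groups of exponent 1, 2, 3, 4 are finite (Burnside, Sanov).
-/

set_option autoImplicit false

namespace Pool.Agent.L0h34.PK

variable {G : Type} [Group G]

lemma fin_of_step (hstep : ∀ (H : Subgroup G) (x : G), Finite H →
      Finite (Subgroup.closure ((H : Set G) ∪ {x}))) (hfg : Group.FG G) : Finite G := by
  classical
  have key : ∀ S : Finset G, Finite (Subgroup.closure (S : Set G)) := by
    intro S
    induction S using Finset.induction_on with
    | empty => simp only [Finset.coe_empty, Subgroup.closure_empty]; infer_instance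
    | insert a s _ ih =>
        have h := hstep _ a ih
        have hle : Subgroup.closure ((insert a s : Finset G) : Set G) ≤
            Subgroup.closure ((Subgroup.closure (s : Set G) : Set G) ∪ {a}) := by
          rw [Subgroup.closure_le]
          intro y hy
          rw [Finset.coe_insert] at hy
          rcases hy with rfl | hy
          · exact Subgroup.subset_closure (Or.inr rfl)
          · exact Subgroup.subset_closure (Or.inl (Subgroup.subset_closure hy))
        exact Set.Finite.subset (s := (Subgroup.closure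
          ((Subgroup.closure (s : Set G) : Set G) ∪ {a}) : Set G)) h hle
  obtain ⟨S, hS⟩ := hfg.out
  have h := key S
  rw [hS] at h
  exact Finite.of_equiv _ Subgroup.topEquiv.toEquiv

/-! ### exponent 3 -/

section three

variable (hG : ∀ g : G, g ^ 3 = 1)
include hG

lemma e3 (x h : G) : x * h * x = h⁻¹ * x⁻¹ * h⁻¹ := by
  have h1 := hG (x * h)
  have h2 : (x * h * x) * (h * x * h) = 1 := by
    rw [← h1]; simp [pow_succ, mul_assoc]
  rw [eq_inv_of_mul_eq_one_left h2]
  simp [mul_assoc]

lemma e3' (x : G) : x⁻¹ = x * x := by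
  have h1 := hG x
  rw [pow_succ, pow_two] at h1
  exact (eq_inv_of_mul_eq_one_left h1).symm

lemma e3'' (x a b : G) : x * a * x⁻¹ * b * x = a⁻¹ * (b * a) * x * (b * a) * b⁻¹ := by
  have h1 : x * a * x⁻¹ * b * x = (x * a * x) * (x * b * x) := by
    rw [e3' hG x]; group
  have h2 : x⁻¹ * (a⁻¹ * b⁻¹) * x⁻¹ = (a⁻¹ * b⁻¹)⁻¹ * x⁻¹⁻¹ * (a⁻¹ * b⁻¹)⁻¹ :=
    e3 hG x⁻¹ (a⁻¹ * b⁻¹)
  rw [h1, e3 hG x a, e3 hG x b]
  have h3 : a⁻¹ * x⁻¹ * a⁻¹ * (b⁻¹ * x⁻¹ * b⁻¹) = a⁻¹ * (x⁻¹ * (a⁻¹ * b⁻¹) * x⁻¹) * b⁻¹ := by group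
  rw [h3, h2]
  group

lemma step3 (H : Subgroup G) (x : G) (hH : Finite H) :
    Finite (Subgroup.closure ((H : Set G) ∪ {x})) := by
  let W : Set G := Set.range (fun p : H => (p : G)) ∪
    (Set.range (fun p : H × H => (p.1 : G) * x * p.2) ∪
    (Set.range (fun p : H × H => (p.1 : G) * x⁻¹ * p.2) ∪
    (Set.range (fun p : H × H × H => (p.1 : G) * x * p.2.1 * x⁻¹ * p.2.2) ∪
    Set.range (fun p : H × H × H => (p.1 : G) * x⁻¹ * p.2.1 * x * p.2.2))))
  have hW : W.Finite := (Set.finite_range _).union ((Set.finite_range _).union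
    ((Set.finite_range _).union ((Set.finite_range _).union (Set.finite_range _))))
  have hmulH : ∀ w ∈ W, ∀ h : H, w * h ∈ W := by
    rintro _ (⟨p, rfl⟩ | ⟨p, rfl⟩ | ⟨p, rfl⟩ | ⟨p, rfl⟩ | ⟨p, rfl⟩) h
    · exact Or.inl ⟨p * h, by simp⟩
    · exact Or.inr (Or.inl ⟨(p.1, p.2 * h), by simp [mul_assoc]⟩)
    · exact Or.inr (Or.inr (Or.inl ⟨(p.1, p.2 * h), by simp [mul_assoc]⟩))
    · exact Or.inr (Or.inr (Or.inr (Or.inl ⟨(p.1, p.2.1, p.2.2 * h), by simp [mul_assoc]⟩)))
    · exact Or.inr (Or.inr (Or.inr (Or.inr ⟨(p.1, p.2.1, p.2.2 * h), by simp [mul_assoc]⟩)))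
  have hmulx : ∀ w ∈ W, w * x ∈ W := by
    rintro _ (⟨p, rfl⟩ | ⟨p, rfl⟩ | ⟨p, rfl⟩ | ⟨p, rfl⟩ | ⟨p, rfl⟩)
    · exact Or.inr (Or.inl ⟨(p, 1), by simp⟩)
    · refine Or.inr (Or.inr (Or.inl ⟨(p.1 * p.2⁻¹, p.2⁻¹), ?_⟩))
      have := e3 hG x (p.2 : G)
      simp only [Subgroup.coe_mul, Subgroup.coe_inv]
      rw [mul_assoc (p.1 : G) x, mul_assoc (p.1 : G) _ x, this]
      group
    · exact Or.inr (Or.inr (Or.inr (Or.inr ⟨(p.1, p.2, 1), by simp⟩)))
    · refine Or.inr (Or.inl ⟨(p.1 * (p.2.1⁻¹ * (p.2.2 * p.2.1)), (p.2.2 * p.2.1) * p.2.2⁻¹), ?_⟩)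
      have := e3'' hG x (p.2.1 : G) (p.2.2 : G)
      simp only [Subgroup.coe_mul, Subgroup.coe_inv]
      have h2 : (p.1 : G) * x * p.2.1 * x⁻¹ * p.2.2 * x =
        p.1 * (x * p.2.1 * x⁻¹ * p.2.2 * x) := by group
      rw [h2, this]
      group
    · refine Or.inr (Or.inl ⟨(p.1 * (p.2.1 * p.2.2⁻¹)⁻¹, (p.2.1 * p.2.2⁻¹)⁻¹ * p.2.2⁻¹), ?_⟩)
      have h1 := e3 hG x (p.2.2 : G)
      have h2 := e3 hG x⁻¹ ((p.2.1 : G) * (p.2.2 : G)⁻¹)
      simp only [Subgroup.coe_mul, Subgroup.coe_inv]
      have h3 : (p.1 : G) * x⁻¹ * p.2.1 * x * p.2.2 * x =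
        p.1 * x⁻¹ * p.2.1 * (x * p.2.2 * x) := by group
      rw [h3, h1]
      have h4 : (p.1 : G) * x⁻¹ * p.2.1 * ((p.2.2 : G)⁻¹ * x⁻¹ * (p.2.2 : G)⁻¹) =
        p.1 * (x⁻¹ * (p.2.1 * (p.2.2 : G)⁻¹) * x⁻¹) * (p.2.2 : G)⁻¹ := by group
      rw [h4, h2]
      group
  have hsub : (Subgroup.closure ((H : Set G) ∪ {x}) : Set G) ⊆ W := by
    intro y hy
    rw [SetLike.mem_coe] at hy
    induction hy using Subgroup.closure_induction_right with
    | one => exact Or.inl ⟨1, by simp⟩
    | mul_right a _ b hb ih =>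
        rcases hb with hb | hb
        · exact hmulH a ih ⟨b, hb⟩
        · rw [Set.mem_singleton_iff] at hb
          subst hb
          exact hmulx a ih
    | mul_inv_cancel a _ b hb ih =>
        rcases hb with hb | hb
        · exact hmulH a ih ⟨b⁻¹, H.inv_mem hb⟩
        · rw [Set.mem_singleton_iff] at hb
          subst hb
          rw [e3' hG b, ← mul_assoc]
          exact hmulx _ (hmulx a ih)
  exact Set.Finite.subset hW hsub

end three

/-! ### exponent 4 -/

section four

/-- `x h₁ x h₂ ⋯` -/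
def VV {H : Subgroup G} (x : G) (l : List H) : G := (l.map (fun h => x * (h : G))).prod

lemma VV_nil {H : Subgroup G} (x : G) : VV x ([] : List H) = 1 := rfl

lemma VV_cons {H : Subgroup G} (x : G) (h : H) (l : List H) : VV x (h :: l) = x * h * VV x l := by
  simp [VV]

lemma VV_append {H : Subgroup G} (x : G) (l l' : List H) :
    VV x (l ++ l') = VV x l * VV x l' := by
  simp [VV]

/-- the alternating products -/
def eo {H : Subgroup G} : List H → H × H
  | [] => (1, 1)
  | a :: l => (a * (eo l).2, (eo l).1)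

lemma eo_append_even {H : Subgroup G} (n : ℕ) : ∀ (l l' : List H), l.length = 2 * n →
    eo (l ++ l') = ((eo l).1 * (eo l').1, (eo l).2 * (eo l').2) := by
  induction n with
  | zero =>
      intro l l' hl
      have : l = [] := List.eq_nil_of_length_eq_zero (by simpa using hl)
      subst this
      simp [eo]
  | succ n ih =>
      intro l l' hl
      match l, hl with
      | [], hl => simp at hl
      | [a], hl => simp at hl; omega
      | a :: b :: l, hl =>
          have h1 := ih l l' (by simp only [List.length_cons] at hl; omega)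
          simp [eo, h1, mul_assoc]

/-- the altered element -/
def alt {H : Subgroup G} (l : List H) : H := (eo l).1 * (eo l).2⁻¹

lemma alt_cons {H : Subgroup G} (a : H) (l : List H) : alt (a :: l) = a * (alt l)⁻¹ := by
  simp [alt, eo, mul_assoc]

variable (hG : ∀ g : G, g ^ 4 = 1)
include hG

lemma e4 (x b : G) : x * b * x = b⁻¹ * x * ((x ^ 2)⁻¹ * b⁻¹ * (x ^ 2)⁻¹) * x * b⁻¹ := by
  have h1 := hG (x * b)
  have h2 : (x * b * x) * (b * x * b * x * b) = 1 := by
    rw [← h1]; simp [pow_succ, mul_assoc]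
  rw [eq_inv_of_mul_eq_one_left h2]
  group

lemma VV_swap {H : Subgroup G} (x : G) (hx : x ^ 2 ∈ H) (a b c : H) (t : List H) :
    VV x (a :: b :: c :: t) =
      VV x (a * b⁻¹ :: (⟨x ^ 2, hx⟩⁻¹ * b⁻¹ * ⟨x ^ 2, hx⟩⁻¹) :: (b⁻¹ * c) :: t) := by
  simp only [VV_cons, Subgroup.coe_mul, Subgroup.coe_inv]
  have h := e4 hG x (b : G)
  have h1 : x * (a : G) * (x * b * (x * c * VV x t)) = x * a * (x * b * x) * c * VV x t := by group
  rw [h1, h]
  group

lemma VV_alt {H : Subgroup G} (x : G) (hx : x ^ 2 ∈ H) (c : H) : ∀ l : List H, l ≠ [] →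
    ∃ l' : List H, l'.length = l.length ∧ VV x (l ++ [c]) = VV x (alt l :: l') := by
  intro l
  induction l with
  | nil => intro h; exact absurd rfl h
  | cons a l ih =>
      intro _
      by_cases hl : l = []
      · subst hl
        refine ⟨[c], rfl, ?_⟩
        simp [alt, eo]
      · obtain ⟨l', hl', hV⟩ := ih hl
        match l', hl' with
        | [], hl' => exact absurd (List.eq_nil_of_length_eq_zero hl'.symm) hl
        | c2 :: l3, hl' =>
            refine ⟨(⟨x ^ 2, hx⟩⁻¹ * (alt l)⁻¹ * ⟨x ^ 2, hx⟩⁻¹) :: ((alt l)⁻¹ * c2) :: l3, ?_, ?_⟩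
            · simp only [List.length_cons] at hl' ⊢; omega
            · rw [List.cons_append, VV_cons, hV, ← VV_cons, VV_swap hG x hx, alt_cons]

omit hG in
lemma absorb {H : Subgroup G} (x : G) (h0 h : H) (l : List H) :
    ∃ (h0' : H) (l' : List H), l'.length = l.length ∧ (h0 : G) * VV x l * h = h0' * VV x l' := by
  rcases List.eq_nil_or_concat l with rfl | ⟨l, a, rfl⟩
  · exact ⟨h0 * h, [], rfl, by simp [VV_nil]⟩
  · refine ⟨h0, l ++ [a * h], by simp, ?_⟩
    simp [List.concat_eq_append, VV_append, VV_cons, VV_nil, mul_assoc]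

lemma reduce {H : Subgroup G} (x : G) (hx : x ^ 2 ∈ H) (h0 : H) (pre l post : List H) (c : H)
    (hl : l ≠ []) (halt : alt l = 1) :
    ∃ (h0' : H) (l' : List H), l'.length < (pre ++ l ++ [c] ++ post).length ∧
      (h0 : G) * VV x (pre ++ l ++ [c] ++ post) = h0' * VV x l' := by
  obtain ⟨l', hl', hV⟩ := VV_alt hG x hx c l hl
  match l', hl' with
  | [], hl' => exact absurd (List.eq_nil_of_length_eq_zero hl'.symm) hl
  | c2 :: l3, hl' =>
      obtain ⟨h0', pre', hpre, he⟩ := absorb x h0 (⟨x ^ 2, hx⟩ * c2) pre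
      refine ⟨h0', pre' ++ l3 ++ post, ?_, ?_⟩
      · simp only [List.length_append, List.length_cons, List.length_nil] at hl' hpre ⊢
        omega
      · rw [List.append_assoc pre l [c], VV_append, VV_append, hV, halt, VV_append, VV_append,
          VV_cons, VV_cons, ← mul_assoc (h0' : G), ← mul_assoc (h0' : G), ← he]
        simp only [Subgroup.coe_mul, Subgroup.coe_one, pow_two]
        group

lemma bounded {H : Subgroup G} [Finite H] (x : G) (hx : x ^ 2 ∈ H) (n : ℕ) : ∀ (h0 : H) (l : List H),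
    l.length ≤ n → ∃ (h0' : H) (l' : List H), l'.length ≤ 2 * Nat.card (H × H) ∧
      (h0 : G) * VV x l = h0' * VV x l' := by
  classical
  induction n with
  | zero =>
      intro h0 l hl
      exact ⟨h0, l, by omega, rfl⟩
  | succ n ih =>
      intro h0 l hl
      by_cases hlen : l.length ≤ 2 * Nat.card (H × H)
      · exact ⟨h0, l, hlen, rfl⟩
      push Not at hlen
      -- pigeonhole
      let f : Fin (Nat.card (H × H) + 1) → H × H := fun i => eo (l.take (2 * i))
      have hf : ¬ Function.Injective f := by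
        intro hinj
        have := Nat.card_le_card_of_injective f hinj
        simp at this
      obtain ⟨i, j, hij, hlt⟩ : ∃ i j, f i = f j ∧ i < j := by
        simp only [Function.Injective] at hf
        push Not at hf
        obtain ⟨i, j, h1, h2⟩ := hf
        rcases lt_or_gt_of_ne h2 with h3 | h3
        · exact ⟨i, j, h1, h3⟩
        · exact ⟨j, i, h1.symm, h3⟩
      have hi : (i : ℕ) < j := hlt
      have hj : (j : ℕ) ≤ Nat.card (H × H) := by have := j.2; omega
      have hsplit : l.take (2 * j) = l.take (2 * i) ++ (l.take (2 * j)).drop (2 * i) := by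
        conv_lhs => rw [← List.take_append_drop (2 * i) (l.take (2 * j))]
        rw [List.take_take, min_eq_left (by omega)]
      have h1 : f j = ((f i).1 * (eo ((l.take (2 * j)).drop (2 * i))).1,
          (f i).2 * (eo ((l.take (2 * j)).drop (2 * i))).2) := by
        have h2 := eo_append_even i (l.take (2 * i)) ((l.take (2 * j)).drop (2 * i))
          (by rw [List.length_take]; omega)
        rw [← hsplit] at h2
        exact h2
      have halt : alt ((l.take (2 * j)).drop (2 * i)) = 1 := by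
        rw [← hij] at h1
        have ha : (eo ((l.take (2 * j)).drop (2 * i))).1 = 1 := by
          have := congrArg Prod.fst h1
          simpa using this
        have hb : (eo ((l.take (2 * j)).drop (2 * i))).2 = 1 := by
          have := congrArg Prod.snd h1
          simpa using this
        rw [alt, ha, hb]; simp
      have hne : (l.take (2 * j)).drop (2 * i) ≠ [] := by
        intro h
        have := congrArg List.length h
        simp only [List.length_drop, List.length_take, List.length_nil] at this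
        omega
      obtain ⟨c, post, hcp⟩ : ∃ c post, l.drop (2 * j) = c :: post := by
        cases h : l.drop (2 * j) with
        | nil =>
            have := congrArg List.length h
            simp only [List.length_drop, List.length_nil] at this
            omega
        | cons c post => exact ⟨c, post, rfl⟩
      have hl2 : l = l.take (2 * i) ++ (l.take (2 * j)).drop (2 * i) ++ [c] ++ post := by
        conv_lhs => rw [← List.take_append_drop (2 * j) l, hcp, hsplit]
        simp
      obtain ⟨h0', l', hl', he⟩ := reduce hG x hx h0 (l.take (2 * i))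
        ((l.take (2 * j)).drop (2 * i)) post c hne halt
      rw [← hl2] at hl' he
      obtain ⟨h0'', l'', hl'', he'⟩ := ih h0' l' (by omega)
      exact ⟨h0'', l'', hl'', he.trans he'⟩

lemma step4' (H : Subgroup G) (x : G) (hx : x ^ 2 ∈ H) (hH : Finite H) :
    Finite (Subgroup.closure ((H : Set G) ∪ {x})) := by
  let W : Set G := (fun p : H × List H => (p.1 : G) * VV x p.2) ''
    (Set.univ ×ˢ {l : List H | l.length ≤ 2 * Nat.card (H × H)})
  have hW : W.Finite := by
    refine Set.Finite.image _ (Set.Finite.prod (Set.toFinite _) ?_)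
    exact List.finite_length_le _ _
  have hsub : (Subgroup.closure ((H : Set G) ∪ {x}) : Set G) ⊆ W := by
    intro y hy
    rw [SetLike.mem_coe] at hy
    have h1 : ∃ (h0 : H) (l : List H), y = h0 * VV x l := by
      induction hy using Subgroup.closure_induction_right with
      | one => exact ⟨1, [], by simp [VV_nil]⟩
      | mul_right a _ b hb ih =>
          obtain ⟨h0, l, rfl⟩ := ih
          rcases hb with hb | hb
          · obtain ⟨h0', l', _, he⟩ := absorb x h0 ⟨b, hb⟩ l
            exact ⟨h0', l', he⟩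
          · rw [Set.mem_singleton_iff] at hb
            subst hb
            exact ⟨h0, l ++ [1], by simp [VV_append, VV_cons, VV_nil, mul_assoc]⟩
      | mul_inv_cancel a _ b hb ih =>
          obtain ⟨h0, l, rfl⟩ := ih
          rcases hb with hb | hb
          · obtain ⟨h0', l', _, he⟩ := absorb x h0 ⟨b⁻¹, H.inv_mem hb⟩ l
            exact ⟨h0', l', he⟩
          · rw [Set.mem_singleton_iff] at hb
            subst hb
            refine ⟨h0, l ++ [⟨b ^ 2, hx⟩⁻¹], ?_⟩
            simp only [VV_append, VV_cons, VV_nil, Subgroup.coe_inv]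
            group
    obtain ⟨h0, l, rfl⟩ := h1
    obtain ⟨h0', l', hl', he⟩ := bounded hG x hx l.length h0 l le_rfl
    exact ⟨(h0', l'), ⟨Set.mem_univ _, hl'⟩, he.symm⟩
  exact Set.Finite.subset hW hsub

lemma step4 (H : Subgroup G) (x : G) (hH : Finite H) :
    Finite (Subgroup.closure ((H : Set G) ∪ {x})) := by
  have h1 := step4' hG H (x ^ 2) (by rw [← pow_mul, hG]; exact H.one_mem) hH
  have h2 := step4' hG (Subgroup.closure ((H : Set G) ∪ {x ^ 2})) x
    (Subgroup.subset_closure (Or.inr rfl)) h1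
  have hle : Subgroup.closure ((H : Set G) ∪ {x}) ≤
      Subgroup.closure ((Subgroup.closure ((H : Set G) ∪ {x ^ 2}) : Set G) ∪ {x}) := by
    rw [Subgroup.closure_le]
    rintro y (hy | hy)
    · exact Subgroup.subset_closure (Or.inl (Subgroup.subset_closure (Or.inl hy)))
    · exact Subgroup.subset_closure (Or.inr hy)
  exact Set.Finite.subset (s := (Subgroup.closure
    ((Subgroup.closure ((H : Set G) ∪ {x ^ 2}) : Set G) ∪ {x}) : Set G)) h2 hle

end four

theorem burnside_small (k : ℕ) (hk : 1 ≤ k) (hk' : k ≤ 4) (G : Type) [Group G] (hfg : Group.FG G)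
    (hG : ∀ x : G, x ^ k = 1) : Finite G := by
  by_cases h3 : k = 3
  · subst h3
    exact fin_of_step (fun H x hH => step3 hG H x hH) hfg
  · have h4 : ∀ x : G, x ^ 4 = 1 := by
      intro x
      obtain ⟨m, hm⟩ : k ∣ 4 := by interval_cases k <;> simp_all
      rw [hm, pow_mul, hG, one_pow]
    exact fin_of_step (fun H x hH => step4 h4 H x hH) hfg

end Pool.Agent.L0h34.PK
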