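import Pool.Agent.L0h34.PK.Rel

/-!
Regularity from the finite cover.
-/

set_option autoImplicit false

namespace Pool.Agent.L0h34.PK

variable {α : Type} {g : ContextFreeGrammar α} {L : Language α} {k : ℕ}

lemma regular_of_rectangles {L : Language α} (G : Set (Language α × Language α)) (hG : G.Finite)
    (hs : ∀ f ∈ G, ∀ x ∈ f.1, ∀ y ∈ f.2, x ++ y ∈ L)
    (hc : ∀ x y, x ≠ [] → x ++ y ∈ L → ∃ f ∈ G, x ∈ f.1 ∧ y ∈ f.2) : L.IsRegular := by
  rw [Language.isRegular_iff_finite_range_leftQuotient]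
  have h : Set.range L.leftQuotient ⊆ {L} ∪
      (fun H : Set (Language α × Language α) => ({y | ∃ f ∈ H, y ∈ f.2} : Language α)) '' (𝒫 G) := by
    rintro _ ⟨x, rfl⟩
    by_cases hx : x = []
    · left; subst hx; simp
    · right
      refine ⟨{f ∈ G | x ∈ f.1}, fun f hf => hf.1, ?_⟩
      ext y
      constructor
      · rintro ⟨f, ⟨hf, hxf⟩, hy⟩
        exact hs f hf x hxf y hy
      · intro hy
        obtain ⟨f, hf, h1, h2⟩ := hc x y hx hy
        exact ⟨f, ⟨hf, h1⟩, h2⟩
  exact Set.Finite.subset ((Set.finite_singleton L).union (hG.finite_subsets.image _)) h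

/-- terminal edges -/
def tedges (g : ContextFreeGrammar α) : Set (g.NT × Language α × α × Language α) :=
  {e | ∃ r ∈ g.rules, r.input = e.1 ∧ ∃ s s', r.output = s ++ Symbol.terminal e.2.2.1 :: s' ∧
    e.2.1 = Yl g s ∧ e.2.2.2 = Yl g s'}

lemma tedges_finite (g : ContextFreeGrammar α) : (tedges g).Finite := by
  classical
  have h : tedges g ⊆ ⋃ r ∈ (g.rules : Set (ContextFreeRule α g.NT)),
      ⋃ i ∈ (Set.Iic r.output.length),
        {e | r.input = e.1 ∧ r.output[i]? = some (Symbol.terminal e.2.2.1) ∧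
          e.2.1 = Yl g (r.output.take i) ∧ e.2.2.2 = Yl g (r.output.drop (i + 1))} := by
    rintro ⟨A, P, d, Q⟩ ⟨r, hr, hA, s, s', hs, hP, hQ⟩
    simp only [Set.mem_iUnion]
    refine ⟨r, hr, s.length, ?_, hA, ?_, ?_, ?_⟩
    · rw [Set.mem_Iic, hs]; simp
    · rw [hs]; simp
    · rw [hP, hs]; simp
    · rw [hQ, hs]; simp
  refine Set.Finite.subset ?_ h
  refine Set.Finite.biUnion g.rules.finite_toSet (fun r _ => ?_)
  refine Set.Finite.biUnion (Set.finite_Iic _) (fun i _ => ?_)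
  refine Set.Subsingleton.finite ?_
  rintro ⟨A, P, B, Q⟩ ⟨h1, h2, h3, h4⟩ ⟨A', P', B', Q'⟩ ⟨h1', h2', h3', h4'⟩
  simp only at h1 h2 h3 h4 h1' h2' h3' h4'
  rw [h2] at h2'
  have hB : B = B' := by simpa using h2'
  rw [← h1, ← h1', h3, h3', h4, h4', hB]

theorem regular_of_bfin (hB : BFin k) (hk : 1 ≤ k) (L : Language α) (hcf : L.IsContextFree)
    (hL : PCond k L) : L.IsRegular := by
  classical
  obtain ⟨g, rfl⟩ := hcf
  have hcov : ∀ B : g.NT, Cov g g.language g.initial B := fun B =>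
    cov_all hB hL hk _ g.initial B le_rfl
  choose F hF hs hc using hcov
  have hR0 : R g g.language g.initial [] [] := by
    intro m hm
    rw [List.nil_append, List.append_nil, mem_language_iff_tr]
    exact hm
  refine regular_of_rectangles (⋃ e ∈ tedges g,
    (fun f : Language α × Language α => (f.1 * e.2.1 * ({[e.2.2.1]} : Language α), e.2.2.2 * f.2)) ''
      (F e.1)) ?_ ?_ ?_
  · exact (tedges_finite g).biUnion (fun e _ => (hF e.1).image _)
  · intro f hf
    simp only [Set.mem_iUnion] at hf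
    obtain ⟨⟨B, P, d, Q⟩, he, f', hf', rfl⟩ := hf
    obtain ⟨r, hr, hBr, s, s', hs', hP, hQ⟩ := he
    simp only at hBr hs' hP hQ hf'
    subst hP hQ
    rintro _ ⟨_, ⟨x, hx, p, hp, rfl⟩, _, rfl, rfl⟩ _ ⟨q, hq, y, hy, rfl⟩
    have h1 := hs B f' hf' [] [] hR0 x hx y hy
    have h2 : Tr g [Symbol.nonterminal B] (p ++ d :: q) := by
      rw [tr_nont_iff]
      refine ⟨r, hr, hBr, ?_⟩
      rw [hs']
      exact Tr.append hp (Tr.term d _ _ hq)
    have := h1 _ h2
    simpa using this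
  · intro x y hx hxy
    rw [mem_language_iff_tr] at hxy
    obtain ⟨x', d, rfl⟩ : ∃ x' d, x = x' ++ [d] := ⟨x.dropLast, x.getLast hx, by
      rw [List.dropLast_append_getLast]⟩
    obtain ⟨s1, s2, b, x1, x2, y2, y1, hs', hx', hy', h1, h2, h3⟩ := hxy.letter x' y d (by simp)
    have hs1 : s1 = [] := by
      cases s1 with
      | nil => rfl
      | cons c s1 => simp at hs'
    subst hs1
    simp only [List.nil_append, List.cons.injEq] at hs'
    obtain ⟨rfl, rfl⟩ := hs'
    have hx1 : x1 = [] := by cases h1; rfl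
    have hy1 : y1 = [] := by cases h2; rfl
    subst hx1 hy1
    simp only [List.nil_append, List.append_nil] at hx' hy'
    subst hx' hy'
    rcases h3 with ⟨h, _⟩ | ⟨A, B, P, Q, t, t', r, hA, hp, hr, hBr, ho, hx2, hy2⟩
    · exact absurd h (by simp)
    · simp only [Symbol.nonterminal.injEq] at hA
      subst hA
      obtain ⟨f, hf, hfP, hfQ⟩ := hc B P Q hp
      refine ⟨_, Set.mem_biUnion (x := (B, Yl g t, d, Yl g t')) ⟨r, hr, hBr, t, t', ho, rfl, rfl⟩
        ⟨f, hf, rfl⟩, ?_, ?_⟩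
      · obtain ⟨p, hpP, a, ha, rfl⟩ := Language.mem_mul.1 hx2
        exact Language.append_mem_mul (Language.append_mem_mul (hfP _ hpP) ha) rfl
      · obtain ⟨a, ha, q, hqQ, rfl⟩ := Language.mem_mul.1 hy2
        exact Language.append_mem_mul ha (hfQ _ hqQ)

end Pool.Agent.L0h34.PK
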