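import Pool.Agent.L0h34.PK.Basic

/-!
The relation `R A x y` and the group of left classes of loops.
-/

set_option autoImplicit false

namespace Pool.Agent.L0h34.PK

variable {α : Type} {g : ContextFreeGrammar α} {L : Language α} {k : ℕ}

/-- `(x, y)` is a good context of `A` for the language `L`. -/
def R (g : ContextFreeGrammar α) (L : Language α) (A : g.NT) (x y : List α) : Prop :=
  ∀ m, Tr g [Symbol.nonterminal A] m → x ++ m ++ y ∈ L

lemma R.path {A B : g.NT} {P Q : Language α} (h : Path g A B P Q) {x y p q : List α}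
    (hR : R g L A x y) (hp : p ∈ P) (hq : q ∈ Q) : R g L B (x ++ p) (q ++ y) := by
  intro m hm
  have := hR _ (h.yield hp hq hm)
  simpa using this

lemma loop_rep {A : g.NT} {P Q : Language α} (h : Path g A A P Q) {u v m : List α}
    (hu : u ∈ P) (hv : v ∈ Q) (hm : Tr g [Symbol.nonterminal A] m) (n : ℕ) :
    Tr g [Symbol.nonterminal A] (rep n u ++ m ++ rep n v) := by
  induction n with
  | zero => simpa using hm
  | succ n ih =>
      have := h.yield hu hv ih
      rw [rep_succ, rep_succ']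
      simpa using this

lemma R.cancel (hL : PCond k L) {A : g.NT} {P Q : Language α} (h : Path g A A P Q)
    {x y u v : List α} (hu : u ∈ P) (hv : v ∈ Q) (hR : R g L A (x ++ u) (v ++ y)) :
    R g L A x y := by
  intro m hm
  by_cases huv : u ++ v = []
  · simp only [List.append_eq_nil_iff] at huv
    obtain ⟨rfl, rfl⟩ := huv
    simpa using hR m hm
  · have := hL x u m v y huv (fun n hn => ?_) 0 0
    · simpa using this
    · obtain ⟨n', rfl⟩ : ∃ n', n = n' + 1 := ⟨n - 1, by omega⟩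
      have := hR _ (loop_rep h hu hv hm n')
      rw [rep_succ, rep_succ']
      simpa using this

lemma R.insert (hL : PCond k L) {A : g.NT} {P Q : Language α} (h : Path g A A P Q)
    {x y u v : List α} (hu : u ∈ P) (hv : v ∈ Q) (hR : R g L A x y) (i j : ℕ) :
    R g L A (x ++ rep (k * i) u) (rep (k * j) v ++ y) := by
  intro m hm
  by_cases huv : u ++ v = []
  · simp only [List.append_eq_nil_iff] at huv
    obtain ⟨rfl, rfl⟩ := huv
    simpa using hR m hm
  · have := hL x u m v y huv (fun n _ => ?_) i j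
    · simpa using this
    · have := hR _ (loop_rep h hu hv hm n)
      simpa using this

lemma Path.pow {A : g.NT} {P Q : Language α} (h : Path g A A P Q) (n : ℕ) :
    Path g A A (P ^ n) (Q ^ n) := by
  induction n with
  | zero => simpa using Path.nil A
  | succ n ih =>
      have := ih.trans h
      rwa [← pow_succ, ← pow_succ'] at this

lemma rep_mem_pow {P : Language α} {u : List α} (hu : u ∈ P) (n : ℕ) : rep n u ∈ P ^ n := by
  induction n with
  | zero => simp
  | succ n ih =>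
      rw [rep_succ, pow_succ']
      exact Language.append_mem_mul hu ih

lemma R.iff_left (hL : PCond k L) {A : g.NT} {P Q : Language α} (h : Path g A A P Q)
    {x y u : List α} (hu : u ∈ P) : R g L A (x ++ rep k u) y ↔ R g L A x y := by
  obtain ⟨v, hv⟩ := h.nonempty.2
  constructor
  · intro hR
    have h1 := R.insert hL h hu hv hR 0 1
    simp only [mul_zero, mul_one, rep_zero, List.append_nil] at h1
    exact R.cancel hL (h.pow k) (rep_mem_pow hu k) (rep_mem_pow hv k) h1
  · intro hR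
    have h1 := R.insert hL h hu hv hR 1 0
    simpa using h1

lemma R.iff_right (hL : PCond k L) {A : g.NT} {P Q : Language α} (h : Path g A A P Q)
    {x y v : List α} (hv : v ∈ Q) : R g L A x (rep k v ++ y) ↔ R g L A x y := by
  obtain ⟨u, hu⟩ := h.nonempty.1
  constructor
  · intro hR
    have h1 := R.insert hL h hu hv hR 1 0
    simp only [mul_zero, mul_one, rep_zero, List.nil_append] at h1
    exact R.cancel hL (h.pow k) (rep_mem_pow hu k) (rep_mem_pow hv k) h1
  · intro hR
    have h1 := R.insert hL h hu hv hR 0 1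
    simpa using h1

/-- connectedness -/
def Conn (g : ContextFreeGrammar α) (A B : g.NT) : Prop := ∃ P Q, Path g A B P Q

lemma Conn.refl (A : g.NT) : Conn g A A := ⟨1, 1, Path.nil A⟩

lemma Conn.trans {A B C : g.NT} (h : Conn g A B) (h' : Conn g B C) : Conn g A C := by
  obtain ⟨P, Q, h⟩ := h
  obtain ⟨P', Q', h'⟩ := h'
  exact ⟨_, _, h.trans h'⟩

lemma R.step_iff (hL : PCond k L) {A B : g.NT} {P Q : Language α} (h : Path g A B P Q)
    (hb : Conn g B A) {x y p q : List α} (hp : p ∈ P) (hq : q ∈ Q) :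
    R g L A x y ↔ R g L B (x ++ p) (q ++ y) := by
  refine ⟨fun hR => hR.path h hp hq, fun hR => ?_⟩
  obtain ⟨P', Q', h'⟩ := hb
  obtain ⟨⟨a, ha⟩, ⟨b, hb⟩⟩ := h'.nonempty
  have h1 := hR.path h' ha hb
  have h2 := R.cancel (x := x) (y := y) hL (h.trans h') (Language.append_mem_mul hp ha)
    (Language.append_mem_mul hb hq)
  apply h2
  simpa using h1

/-- left equivalence at `A` -/
def E (g : ContextFreeGrammar α) (L : Language α) (A : g.NT) (x x' : List α) : Prop :=
  ∀ y, R g L A x y ↔ R g L A x' y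

lemma E.step (hL : PCond k L) (hk : 1 ≤ k) {A B : g.NT} {P Q : Language α} (h : Path g A B P Q)
    (hb : Conn g B A) {x x' p p' : List α} (hp : p ∈ P) (hp' : p' ∈ P) (hE : E g L A x x') :
    E g L B (x ++ p) (x' ++ p') := by
  intro y
  obtain ⟨q, hq⟩ := h.nonempty.2
  have hb' := hb
  obtain ⟨P', Q', h'⟩ := hb
  obtain ⟨⟨a, ha⟩, ⟨b, hb⟩⟩ := h'.nonempty
  have hloop := h'.trans h
  have key : ∀ z : List α, R g L B z y ↔ R g L B z (q ++ (b ++ rep (k - 1) (q ++ b) ++ y)) := by
    intro z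
    rw [← R.iff_right (x := z) (y := y) hL hloop (Language.append_mem_mul hq hb)]
    obtain ⟨k', rfl⟩ : ∃ k', k = k' + 1 := ⟨k - 1, by omega⟩
    rw [rep_succ]
    simp
  rw [key, key, ← R.step_iff hL h hb' hp hq, ← R.step_iff hL h hb' hp' hq]
  exact hE _

lemma E.cancel (hL : PCond k L) {A B : g.NT} {P Q : Language α} (h : Path g A B P Q)
    (hb : Conn g B A) {x x' p p' : List α} (hp : p ∈ P) (hp' : p' ∈ P)
    (hE : E g L B (x ++ p) (x' ++ p')) : E g L A x x' := by
  intro y
  obtain ⟨q, hq⟩ := h.nonempty.2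
  rw [R.step_iff hL h hb hp hq, R.step_iff hL h hb hp' hq]
  exact hE _

lemma E.refl (A : g.NT) (x : List α) : E g L A x x := fun _ => Iff.rfl

/-- the setoid of left equivalence -/
def stE (g : ContextFreeGrammar α) (L : Language α) (A : g.NT) : Setoid (List α) where
  r := E g L A
  iseqv := ⟨fun x => E.refl A x, fun h y => (h y).symm, fun h h' y => (h y).trans (h' y)⟩

/-- classes of left words at `A` -/
abbrev CQ (g : ContextFreeGrammar α) (L : Language α) (A : g.NT) : Type := Quotient (stE g L A)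

/-- class of a word -/
def cls (g : ContextFreeGrammar α) (L : Language α) (A : g.NT) (x : List α) : CQ g L A :=
  Quotient.mk (stE g L A) x

lemma cls_eq {A : g.NT} {x x' : List α} : cls g L A x = cls g L A x' ↔ E g L A x x' :=
  ⟨fun h => Quotient.exact h, fun h => Quotient.sound h⟩

lemma cls_surj {A : g.NT} (c : CQ g L A) : ∃ x, cls g L A x = c := Quotient.exists_rep c

/-- the permutation `σ` is appending a word of `P` -/
def Real {A : g.NT} (P : Language α) (σ : Equiv.Perm (CQ g L A)) : Prop :=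
  ∀ x, ∀ p ∈ P, σ (cls g L A x) = cls g L A (x ++ p)

lemma Real.unique {A : g.NT} {P : Language α} {σ τ : Equiv.Perm (CQ g L A)} (hP : P.Nonempty)
    (h : Real P σ) (h' : Real P τ) : σ = τ := by
  ext c
  obtain ⟨x, rfl⟩ := cls_surj c
  obtain ⟨p, hp⟩ := hP
  rw [h x p hp, h' x p hp]

lemma Real.mul {A : g.NT} {P P' : Language α} {σ τ : Equiv.Perm (CQ g L A)}
    (h : Real P σ) (h' : Real P' τ) : Real (P * P') (τ * σ) := by
  intro x p hp
  obtain ⟨p1, hp1, p2, hp2, rfl⟩ := Language.mem_mul.1 hp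
  rw [Equiv.Perm.mul_apply, h x p1 hp1, h' _ p2 hp2, List.append_assoc]

lemma Real.one {A : g.NT} : Real 1 (1 : Equiv.Perm (CQ g L A)) := by
  intro x p hp
  have hp' : p = [] := hp
  subst hp'
  simp

lemma Real.pow {A : g.NT} {P : Language α} {σ : Equiv.Perm (CQ g L A)} (h : Real P σ) (n : ℕ) :
    Real (P ^ n) (σ ^ n) := by
  induction n with
  | zero => simpa using Real.one
  | succ n ih =>
      have := ih.mul h
      rwa [← pow_succ, ← pow_succ'] at this

lemma Real.pow_eq_one (hL : PCond k L) {A : g.NT} {P Q : Language α} (hp : Path g A A P Q)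
    {σ : Equiv.Perm (CQ g L A)} (h : Real P σ) : σ ^ k = 1 := by
  ext c
  obtain ⟨x, rfl⟩ := cls_surj c
  obtain ⟨p, hpP⟩ := hp.nonempty.1
  rw [h.pow k x (rep k p) (rep_mem_pow hpP k), Equiv.Perm.one_apply, cls_eq]
  intro y
  exact R.iff_left hL hp hpP

lemma exists_real (hL : PCond k L) (hk : 1 ≤ k) {A : g.NT} {P Q : Language α}
    (h : Path g A A P Q) : ∃ σ : Equiv.Perm (CQ g L A), Real P σ := by
  obtain ⟨p, hp⟩ := h.nonempty.1
  let f : CQ g L A → CQ g L A := Quotient.map (fun x => x ++ p)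
    (fun x x' hx => E.step hL hk h (Conn.refl A) hp hp hx)
  have hf : ∀ x, f (cls g L A x) = cls g L A (x ++ p) := fun x => rfl
  have hfn : ∀ n x, f^[n] (cls g L A x) = cls g L A (x ++ rep n p) := by
    intro n
    induction n with
    | zero => intro x; simp
    | succ n ih => intro x; rw [Function.iterate_succ_apply, hf, ih, rep_succ, List.append_assoc]
  have hfk : ∀ c, f^[k] c = c := by
    intro c
    obtain ⟨x, rfl⟩ := cls_surj c
    rw [hfn, cls_eq]
    intro y
    exact R.iff_left hL h hp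
  obtain ⟨k', rfl⟩ : ∃ k', k = k' + 1 := ⟨k - 1, by omega⟩
  refine ⟨⟨f, f^[k'], ?_, ?_⟩, ?_⟩
  · intro c
    rw [← Function.iterate_succ_apply, hfk]
  · intro c
    have := hfk c
    rwa [Function.iterate_succ_apply'] at this
  · intro x p' hp'
    show f (cls g L A x) = _
    rw [hf, cls_eq]
    exact E.step hL hk h (Conn.refl A) hp hp' (E.refl A x)

/-- the group of the loops at `A` -/
def GA (g : ContextFreeGrammar α) (hL : PCond k L) (hk : 1 ≤ k) (A : g.NT) :
    Subgroup (Equiv.Perm (CQ g L A)) where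
  carrier := {σ | ∃ P Q, Path g A A P Q ∧ Real P σ}
  one_mem' := ⟨1, 1, Path.nil A, Real.one⟩
  mul_mem' := by
    rintro σ τ ⟨P, Q, h, hr⟩ ⟨P', Q', h', hr'⟩
    exact ⟨_, _, h'.trans h, hr'.mul hr⟩
  inv_mem' := by
    rintro σ ⟨P, Q, h, hr⟩
    refine ⟨_, _, h.pow (k - 1), ?_⟩
    have h1 : σ⁻¹ = σ ^ (k - 1) := by
      apply inv_eq_of_mul_eq_one_left
      rw [← pow_succ, Nat.sub_add_cancel hk]
      exact hr.pow_eq_one hL h
    rw [h1]
    exact hr.pow _

lemma mem_GA {hL : PCond k L} {hk : 1 ≤ k} {A : g.NT} {σ : Equiv.Perm (CQ g L A)} :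
    σ ∈ GA g hL hk A ↔ ∃ P Q, Path g A A P Q ∧ Real P σ := Iff.rfl

lemma nodes_finite (g : ContextFreeGrammar α) (A : g.NT) : {B | Conn g A B}.Finite := by
  have h : {B | Conn g A B} ⊆ {A} ∪ (fun e : g.NT × Language α × Language α × g.NT => e.2.2.2) ''
      edges g := by
    rintro B ⟨P, Q, h⟩
    cases h with
    | nil => left; rfl
    | snoc h he hP hQ => right; exact ⟨_, he, rfl⟩
  exact Set.Finite.subset ((Set.finite_singleton A).union ((edges_finite g).image _)) h

lemma GA_fg (hL : PCond k L) (hk : 1 ≤ k) (A : g.NT) : (GA g hL hk A).FG := by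
  classical
  -- chosen paths
  let V : Set g.NT := {B | Conn g A B ∧ Conn g B A}
  have hV : V.Finite := (nodes_finite g A).subset (fun B hB => hB.1)
  have h1 : ∀ B : g.NT, ∃ P Q : Language α, B ∈ V → Path g A B P Q := by
    intro B
    by_cases hB : B ∈ V
    · obtain ⟨P, Q, h⟩ := hB.1
      exact ⟨P, Q, fun _ => h⟩
    · exact ⟨1, 1, fun h => absurd h hB⟩
  have h2 : ∀ B : g.NT, ∃ P Q : Language α, B ∈ V → Path g B A P Q := by
    intro B
    by_cases hB : B ∈ V
    · obtain ⟨P, Q, h⟩ := hB.2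
      exact ⟨P, Q, fun _ => h⟩
    · exact ⟨1, 1, fun h => absurd h hB⟩
  choose tP tQ ht using h1
  choose rP rQ hr using h2
  have hA : A ∈ V := ⟨Conn.refl A, Conn.refl A⟩
  let S0 : Set (Equiv.Perm (CQ g L A)) := {σ | Real (rP A) σ}
  let S1 : Set (Equiv.Perm (CQ g L A)) := ⋃ B ∈ V, {σ | Real (tP B * rP B) σ}
  let S2 : Set (Equiv.Perm (CQ g L A)) := ⋃ e ∈ edges g,
    {σ | e.1 ∈ V ∧ e.2.2.2 ∈ V ∧ e.2.1.Nonempty ∧ e.2.2.1.Nonempty ∧
      Real (tP e.1 * e.2.1 * rP e.2.2.2) σ}
  have hS0 : S0.Finite := by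
    refine Set.Subsingleton.finite ?_
    intro σ hσ τ hτ
    exact Real.unique (hr A hA).nonempty.1 hσ hτ
  have hS1 : S1.Finite := by
    refine Set.Finite.biUnion hV (fun B hB => Set.Subsingleton.finite ?_)
    intro σ hσ τ hτ
    exact Real.unique ((ht B hB).trans (hr B hB)).nonempty.1 hσ hτ
  have hS2 : S2.Finite := by
    refine Set.Finite.biUnion (edges_finite g) (fun e he => Set.Subsingleton.finite ?_)
    rintro σ ⟨h1, h2, h3, h4, hσ⟩ τ ⟨_, _, _, _, hτ⟩
    have := (((ht _ h1).trans (Path.single (B := e.1) (C := e.2.2.2) he h3 h4)).trans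
      (hr _ h2)).nonempty.1
    exact Real.unique this hσ hτ
  have hS : (S0 ∪ S1 ∪ S2).Finite := (hS0.union hS1).union hS2
  have key : ∀ {B : g.NT} {P Q : Language α}, Path g A B P Q → B ∈ V →
      ∀ σ : Equiv.Perm (CQ g L A), Real (P * rP B) σ → σ ∈ Subgroup.closure (S0 ∪ S1 ∪ S2) := by
    intro B P Q h
    induction h with
    | nil =>
        intro _ σ hσ
        rw [one_mul] at hσ
        exact Subgroup.subset_closure (Or.inl (Or.inl hσ))
    | @snoc B C P Q P' Q' h he hP hQ ih =>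
        intro hC σ hσ
        have hBC := Path.single he hP hQ
        have hB : B ∈ V := ⟨⟨_, _, h⟩, Conn.trans ⟨_, _, hBC⟩ hC.2⟩
        obtain ⟨τ, hτ⟩ := exists_real (L := L) hL hk (h.trans (hr B hB))
        have hτm := ih hB τ hτ
        obtain ⟨σ1, hσ1⟩ := exists_real (L := L) hL hk (((ht B hB).trans hBC).trans (hr C hC))
        obtain ⟨σ2, hσ2⟩ := exists_real (L := L) hL hk ((ht B hB).trans (hr B hB))
        have hσ1m : σ1 ∈ Subgroup.closure (S0 ∪ S1 ∪ S2) := by
          refine Subgroup.subset_closure (Or.inr ?_)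
          simp only [S2, Set.mem_iUnion]
          exact ⟨_, he, hB, hC, hP, hQ, hσ1⟩
        have hσ2m : σ2 ∈ Subgroup.closure (S0 ∪ S1 ∪ S2) := by
          refine Subgroup.subset_closure (Or.inl (Or.inr ?_))
          simp only [S1, Set.mem_iUnion]
          exact ⟨B, hB, hσ2⟩
        have hmain : σ = σ1 * σ2⁻¹ * τ := by
          ext c
          obtain ⟨x, rfl⟩ := cls_surj c
          obtain ⟨p, hp⟩ := h.nonempty.1
          obtain ⟨p', hp'⟩ := hP
          obtain ⟨t, ht'⟩ := (ht B hB).nonempty.1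
          obtain ⟨r, hr'⟩ := (hr B hB).nonempty.1
          obtain ⟨r', hr''⟩ := (hr C hC).nonempty.1
          have e1 : τ (cls g L A x) = cls g L A (x ++ (p ++ r)) :=
            hτ x _ (Language.append_mem_mul hp hr')
          obtain ⟨z, hz⟩ := cls_surj (σ2⁻¹ (cls g L A (x ++ (p ++ r))))
          have e2 : σ2 (cls g L A z) = cls g L A (x ++ (p ++ r)) := by
            rw [hz]; simp
          rw [hσ2 z _ (Language.append_mem_mul ht' hr'), cls_eq] at e2
          have e3 : E g L B (z ++ t) (x ++ p) := by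
            refine E.cancel hL (hr B hB) hB.1 hr' hr' ?_
            simpa using e2
          have hpath := hBC.trans (hr C hC)
          have e4 := E.step hL hk hpath hB.1 (Language.append_mem_mul hp' hr'')
            (Language.append_mem_mul hp' hr'') e3
          rw [Equiv.Perm.mul_apply, Equiv.Perm.mul_apply, e1, ← hz,
            hσ1 z _ (Language.append_mem_mul (Language.append_mem_mul ht' hp') hr''),
            hσ x _ (Language.append_mem_mul (Language.append_mem_mul hp hp') hr''), cls_eq]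
          intro y
          have := (e4 y).symm
          simpa using this
        rw [hmain]
        exact Subgroup.mul_mem _ (Subgroup.mul_mem _ hσ1m (Subgroup.inv_mem _ hσ2m)) hτm
  have hcl : Subgroup.closure (S0 ∪ S1 ∪ S2) = GA g hL hk A := by
    apply le_antisymm
    · rw [Subgroup.closure_le]
      rintro σ ((hσ | hσ) | hσ)
      · exact ⟨_, _, hr A hA, hσ⟩
      · simp only [S1, Set.mem_iUnion] at hσ
        obtain ⟨B, hB, hσ⟩ := hσ
        exact ⟨_, _, (ht B hB).trans (hr B hB), hσ⟩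
      · simp only [S2, Set.mem_iUnion] at hσ
        obtain ⟨e, he, h1, h2, h3, h4, hσ⟩ := hσ
        exact ⟨_, _, ((ht _ h1).trans (Path.single (B := e.1) (C := e.2.2.2) he h3 h4)).trans
          (hr _ h2), hσ⟩
    · rintro σ ⟨P, Q, h, hσ⟩
      obtain ⟨ρ, hρ⟩ := exists_real (L := L) hL hk (hr A hA)
      have hρm : ρ ∈ Subgroup.closure (S0 ∪ S1 ∪ S2) := Subgroup.subset_closure (Or.inl (Or.inl hρ))
      have h1 := key h hA (ρ * σ) (hσ.mul hρ)
      have h2 := Subgroup.mul_mem _ (Subgroup.inv_mem _ hρm) h1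
      simpa using h2
  rw [← hcl, Subgroup.fg_iff]
  exact ⟨_, rfl, hS⟩

/-- every finitely generated group of exponent `k` (in `Type`) is finite -/
def BFin (k : ℕ) : Prop :=
  ∀ (G : Type) [Group G], Group.FG G → (∀ x : G, x ^ k = 1) → Finite G

lemma GA_finite (hB : BFin k) (hL : PCond k L) (hk : 1 ≤ k) (A : g.NT) :
    Finite (GA g hL hk A) := by
  refine hB _ ?_ ?_
  · rw [Group.fg_iff_subgroup_fg]
    exact GA_fg hL hk A
  · rintro ⟨σ, P, Q, h, hσ⟩
    ext1
    exact hσ.pow_eq_one hL h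

/-- finite cover of the paths from `A` to `B` by good rectangles -/
def Cov (g : ContextFreeGrammar α) (L : Language α) (A B : g.NT) : Prop :=
  ∃ F : Set (Language α × Language α), F.Finite ∧
    (∀ f ∈ F, ∀ x y, R g L A x y → ∀ p ∈ f.1, ∀ q ∈ f.2, R g L B (x ++ p) (q ++ y)) ∧
    ∀ P Q, Path g A B P Q → ∃ f ∈ F, (∀ p ∈ P, p ∈ f.1) ∧ (∀ q ∈ Q, q ∈ f.2)

lemma cov_intra (hB : BFin k) (hL : PCond k L) (hk : 1 ≤ k) {A B : g.NT}
    (hBA : Conn g B A) : Cov g L A B := by
  classical
  have hfin := GA_finite (g := g) (L := L) hB hL hk A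
  obtain ⟨Pr, Qr, hr⟩ := hBA
  let X : GA g hL hk A → Language α := fun σ =>
    {p | ∃ P Q, Path g A B P Q ∧ Real (P * Pr) (σ : Equiv.Perm (CQ g L A)) ∧ p ∈ P}
  let Y : GA g hL hk A → Language α := fun σ =>
    {q | ∃ P Q, Path g A B P Q ∧ Real (P * Pr) (σ : Equiv.Perm (CQ g L A)) ∧ q ∈ Q}
  refine ⟨Set.range (fun σ => (X σ, Y σ)), Set.finite_range _, ?_, ?_⟩
  · rintro _ ⟨σ, rfl⟩ x y hR p ⟨P, Q, h, hσ, hp⟩ q ⟨P', Q', h', hσ', hq⟩
    obtain ⟨p', hp'⟩ := h'.nonempty.1
    obtain ⟨r, hr'⟩ := hr.nonempty.1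
    have h1 := hR.path h' hp' hq
    have e1 := hσ x _ (Language.append_mem_mul hp hr')
    have e2 := hσ' x _ (Language.append_mem_mul hp' hr')
    rw [e1, cls_eq] at e2
    have e3 : E g L B (x ++ p) (x ++ p') := by
      refine E.cancel hL hr ⟨_, _, h⟩ hr' hr' ?_
      simpa using e2
    exact (e3 _).2 h1
  · intro P Q h
    obtain ⟨σ, hσ⟩ := exists_real (L := L) hL hk (h.trans hr)
    refine ⟨_, ⟨⟨σ, _, _, h.trans hr, hσ⟩, rfl⟩, ?_, ?_⟩
    · intro p hp
      exact ⟨P, Q, h, hσ, hp⟩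
    · intro q hq
      exact ⟨P, Q, h, hσ, hq⟩

lemma path_decomp {A B : g.NT} {P Q : Language α} (h : Path g A B P Q) :
    Conn g B A ∨ ∃ A' C P1 Q1 Pe Qe P2 Q2, Path g A A' P1 Q1 ∧ Conn g A' A ∧
      (A', Pe, Qe, C) ∈ edges g ∧ Pe.Nonempty ∧ Qe.Nonempty ∧ ¬ Conn g C A ∧ Path g C B P2 Q2 ∧
      P = P1 * Pe * P2 ∧ Q = Q2 * Qe * Q1 := by
  induction h with
  | nil => left; exact Conn.refl A
  | @snoc B D P Q P' Q' h he hP hQ ih =>
      rcases ih with hB | ⟨A', C, P1, Q1, Pe, Qe, P2, Q2, h1, h2, h3, hn1, hn2, h4, h5, rfl, rfl⟩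
      · by_cases hD : Conn g D A
        · exact Or.inl hD
        · right
          refine ⟨B, D, P, Q, P', Q', 1, 1, h, hB, he, hP, hQ, hD, Path.nil D, ?_, ?_⟩ <;> simp
      · right
        refine ⟨A', C, P1, Q1, Pe, Qe, _, _, h1, h2, h3, hn1, hn2, h4, Path.snoc h5 he hP hQ, ?_, ?_⟩
          <;> simp [mul_assoc]

theorem cov_all (hB : BFin k) (hL : PCond k L) (hk : 1 ≤ k) :
    ∀ (n : ℕ) (A B : g.NT), {C | Conn g A C}.ncard ≤ n → Cov g L A B := by
  classical
  intro n
  induction n with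
  | zero =>
      intro A B h
      exfalso
      have h0 : {C | Conn g A C}.ncard = 0 := by omega
      rw [Set.ncard_eq_zero (nodes_finite g A)] at h0
      have : A ∈ {C | Conn g A C} := Conn.refl A
      rw [h0] at this
      exact this
  | succ n ih =>
      intro A B hn
      by_cases hBA : Conn g B A
      · exact cov_intra hB hL hk hBA
      -- covers for the exits
      have h1 : ∀ e : g.NT × Language α × Language α × g.NT, ∃ F : Set (Language α × Language α),
          F.Finite ∧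
          (∀ f ∈ F, ∀ x y, R g L A x y → ∀ p ∈ f.1, ∀ q ∈ f.2, R g L B (x ++ p) (q ++ y)) ∧
          (e ∈ edges g → Conn g e.1 A → Conn g A e.1 → ¬ Conn g e.2.2.2 A → e.2.1.Nonempty →
            e.2.2.1.Nonempty → ∀ P1 Q1 P2 Q2,
            Path g A e.1 P1 Q1 → Path g e.2.2.2 B P2 Q2 →
            ∃ f ∈ F, (∀ p ∈ P1 * e.2.1 * P2, p ∈ f.1) ∧ (∀ q ∈ Q2 * e.2.2.1 * Q1, q ∈ f.2)) := by
        rintro ⟨A', Pe, Qe, C⟩
        by_cases hc : (A', Pe, Qe, C) ∈ edges g ∧ Conn g A' A ∧ Conn g A A' ∧ ¬ Conn g C A ∧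
            Pe.Nonempty ∧ Qe.Nonempty
        · obtain ⟨he, h2, h3, h4, h5, h6⟩ := hc
          have hedge := Path.single he h5 h6
          have hAC : Conn g A C := Conn.trans h3 ⟨_, _, hedge⟩
          obtain ⟨F1, hF1, hs1, hc1⟩ := cov_intra (L := L) hB hL hk h2
          have hcard : {D | Conn g C D}.ncard ≤ n := by
            have : {D | Conn g C D}.ncard < {D | Conn g A D}.ncard := by
              apply Set.ncard_lt_ncard _ (nodes_finite g A)
              refine ⟨fun D hD => Conn.trans hAC hD, fun hsub => h4 ?_⟩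
              exact hsub (Conn.refl A)
            omega
          obtain ⟨F2, hF2, hs2, hc2⟩ := ih C B hcard
          refine ⟨Set.image2 (fun f f' => (f.1 * Pe * f'.1, f'.2 * Qe * f.2)) F1 F2,
            hF1.image2 _ hF2, ?_, ?_⟩
          · rintro _ ⟨f, hf, f', hf', rfl⟩ x y hR p hp q hq
            simp only at hp hq
            obtain ⟨_, ⟨p1, hp1, pe, hpe, rfl⟩, p2, hp2, rfl⟩ := hp
            obtain ⟨_, ⟨q2, hq2, qe, hqe, rfl⟩, q1, hq1, rfl⟩ := hq
            have r1 := hs1 f hf x y hR p1 hp1 q1 hq1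
            have r2 := r1.path hedge hpe hqe
            have r3 := hs2 f' hf' _ _ r2 p2 hp2 q2 hq2
            simpa using r3
          · intro _ _ _ _ _ _ P1 Q1 P2 Q2 hp1 hp2
            obtain ⟨f, hf, hfP, hfQ⟩ := hc1 P1 Q1 hp1
            obtain ⟨f', hf', hfP', hfQ'⟩ := hc2 P2 Q2 hp2
            refine ⟨_, ⟨f, hf, f', hf', rfl⟩, ?_, ?_⟩
            · rintro _ ⟨_, ⟨p1, hp1, pe, hpe, rfl⟩, p2, hp2, rfl⟩
              exact Language.append_mem_mul (Language.append_mem_mul (hfP _ hp1) hpe) (hfP' _ hp2)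
            · rintro _ ⟨_, ⟨q2, hq2, qe, hqe, rfl⟩, q1, hq1, rfl⟩
              exact Language.append_mem_mul (Language.append_mem_mul (hfQ' _ hq2) hqe) (hfQ _ hq1)
        · refine ⟨∅, Set.finite_empty, ?_, ?_⟩
          · intro f hf; exact absurd hf (Set.notMem_empty f)
          · intro a b c d e f
            exact absurd ⟨a, b, c, d, e, f⟩ hc
      choose F hF hs hcv using h1
      refine ⟨⋃ e ∈ edges g, F e, (edges_finite g).biUnion (fun e _ => hF e), ?_, ?_⟩
      · intro f hf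
        simp only [Set.mem_iUnion] at hf
        obtain ⟨e, _, hf⟩ := hf
        exact hs e f hf
      · intro P Q h
        rcases path_decomp h with h' | ⟨A', C, P1, Q1, Pe, Qe, P2, Q2, h1, h2, h3, hn1, hn2, h4, h5,
          rfl, rfl⟩
        · exact absurd h' hBA
        · obtain ⟨f, hf, h6, h7⟩ := hcv (A', Pe, Qe, C) h3 h2 ⟨_, _, h1⟩ h4 hn1 hn2 P1 Q1 P2 Q2 h1 h5
          refine ⟨f, ?_, h6, h7⟩
          simp only [Set.mem_iUnion]
          exact ⟨_, h3, hf⟩

end Pool.Agent.L0h34.PK
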